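import Pool.Agent.Helper10.CR.Goals2

/-!
# Packet CR-LR1: local rings without cases W and I
-/

universe u

namespace Pool.Agent.Helper84.CR

open IsLocalRing Pool.Agent.Helper10.CR

theorem mem_mul_triple {R : Type u} [CommRing R] {I : Ideal R} {a b c z : R}
    (h : z ∈ I * Ideal.span {a, b, c}) :
    ∃ u ∈ I, ∃ v ∈ I, ∃ w ∈ I, z = u * a + v * b + w * c := by
  refine Submodule.mul_induction_on h ?_ ?_
  · intro t ht s hs
    obtain ⟨p, q, r, hs⟩ := Submodule.mem_span_triple.1 hs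
    refine ⟨t * p, I.mul_mem_right _ ht, t * q, I.mul_mem_right _ ht, t * r,
      I.mul_mem_right _ ht, ?_⟩
    rw [← hs]
    simp only [smul_eq_mul]
    ring
  · rintro x y ⟨u, hu, v, hv, w, hw, rfl⟩ ⟨u', hu', v', hv', w', hw', rfl⟩
    exact ⟨u + u', I.add_mem hu hu', v + v', I.add_mem hv hv', w + w', I.add_mem hw hw', by ring⟩

variable {R : Type u} [CommRing R] [IsLocalRing R]

theorem mem_span_of_unit {a b c p q r : R} (hp : IsUnit p) (h : p * a + q * b + r * c = 0) :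
    a ∈ Ideal.span {b, c} := by
  obtain ⟨p, rfl⟩ := hp
  refine Ideal.mem_span_pair.2 ⟨-(↑p⁻¹ * q), -(↑p⁻¹ * r), ?_⟩
  have h1 : (↑p⁻¹ : R) * (↑p * a + q * b + r * c) = 0 := by rw [h, mul_zero]
  have h2 : (↑p⁻¹ : R) * ↑p = 1 := Units.inv_mul p
  linear_combination a * h2 - h1

theorem sub_unit {u v : R} (hu : u ∉ maximalIdeal R) (hv : v ∈ maximalIdeal R) :
    IsUnit (u - v) := by
  rw [← notMem_maximalIdeal]
  intro h
  have h1 := (maximalIdeal R).add_mem h hv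
  rw [sub_add_cancel] at h1
  exact hu h1

theorem wprime (hW : ¬ CaseW R) (a b c : R) :
    a ∈ Ideal.span {b, c} ∨ b ∈ Ideal.span {a, c} ∨ c ∈ Ideal.span {a, b} := by
  unfold CaseW at hW
  push Not at hW
  obtain ⟨u, v, w, h, hn⟩ := hW a b c
  obtain ⟨u', hu', v', hv', w', hw', e⟩ := mem_mul_triple h
  by_cases hu : u ∈ maximalIdeal R
  · by_cases hv : v ∈ maximalIdeal R
    · have hw := hn hu hv
      right; right
      exact mem_span_of_unit (sub_unit hw hw') (q := u - u') (r := v - v') (by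
        linear_combination e)
    · right; left
      exact mem_span_of_unit (sub_unit hv hv') (q := u - u') (r := w - w') (by
        linear_combination e)
  · left
    exact mem_span_of_unit (sub_unit hu hu') (q := v - v') (r := w - w') (by
      linear_combination e)

theorem nn (hI : ¬ CaseI R) {r x q : R} (hr : r ∈ maximalIdeal R) (hx : x ∈ maximalIdeal R)
    (hq : q ∈ maximalIdeal R) (h : ¬ x ∣ q) : q ∣ r * x := by
  by_contra h1
  exact hI ⟨r, hr, x, hx, q, hq, h, h1⟩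

theorem mem_of_not_dvd {x y : R} (h : ¬ x ∣ y) : x ∈ maximalIdeal R := by
  by_contra h1
  exact h ((notMem_maximalIdeal.1 h1).dvd)

theorem lr1a (hI : ¬ CaseI R) {x y t : R} (hxy : ¬ x ∣ y) (hyx : ¬ y ∣ x)
    (ht : t ∈ maximalIdeal R) : ∃ t' ∈ maximalIdeal R, t * x = t' * y := by
  obtain ⟨s, hs⟩ := nn hI ht (mem_of_not_dvd hxy) (mem_of_not_dvd hyx) hxy
  refine ⟨s, ?_, by rw [hs, mul_comm]⟩
  by_contra h1
  obtain ⟨s, rfl⟩ := notMem_maximalIdeal.1 h1
  apply hxy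
  refine ⟨↑s⁻¹ * t, ?_⟩
  have h2 : (↑s⁻¹ : R) * ↑s = 1 := Units.inv_mul s
  linear_combination (-↑s⁻¹ : R) * hs - y * h2

theorem one_sub_unit {v : R} (hv : v ∈ maximalIdeal R) : IsUnit (1 - v) := by
  refine sub_unit ?_ hv
  rw [notMem_maximalIdeal]
  exact isUnit_one

theorem coef_mem {a b x p q v : R} (hx : x ∉ Ideal.span {a, b}) (h : v * x = p * a + q * b) :
    v ∈ maximalIdeal R := by
  by_contra h1
  obtain ⟨v, rfl⟩ := notMem_maximalIdeal.1 h1
  apply hx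
  refine Ideal.mem_span_pair.2 ⟨↑v⁻¹ * p, ↑v⁻¹ * q, ?_⟩
  have h2 : (↑v⁻¹ : R) * ↑v = 1 := Units.inv_mul v
  linear_combination (-↑v⁻¹ : R) * h + x * h2

theorem lr1b (hW : ¬ CaseW R) (hI : ¬ CaseI R) {a b x : R} (hab : ¬ a ∣ b) (hba : ¬ b ∣ a)
    (hx : x ∉ Ideal.span {a, b}) : ∃ r ∈ maximalIdeal R, a = r * x := by
  by_cases hxa : x ∣ a
  · obtain ⟨r, hr⟩ := hxa
    refine ⟨r, coef_mem hx (p := 1) (q := 0) (by rw [hr]; ring), by rw [hr, mul_comm]⟩
  · exfalso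
    have hax : ¬ a ∣ x := by
      rintro ⟨t, ht⟩
      exact hx (Ideal.mem_span_pair.2 ⟨t, 0, by rw [ht]; ring⟩)
    rcases wprime hW a b x with h | h | h
    · obtain ⟨u, v, e⟩ := Ideal.mem_span_pair.1 h
      have hv : v ∈ maximalIdeal R := coef_mem hx (p := 1) (q := -u) (by
        linear_combination e)
      obtain ⟨v', hv', e'⟩ := lr1a hI hxa hax hv
      obtain ⟨s, hs⟩ := one_sub_unit hv'
      apply hba
      refine ⟨↑s⁻¹ * u, ?_⟩
      have h2 : (↑s⁻¹ : R) * ↑s = 1 := Units.inv_mul s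
      rw [hs] at h2
      linear_combination (-↑s⁻¹ : R) * e + (↑s⁻¹ : R) * e' - a * h2
    · obtain ⟨u, v, e⟩ := Ideal.mem_span_pair.1 h
      have hv : v ∈ maximalIdeal R := coef_mem hx (p := -u) (q := 1) (by
        linear_combination e)
      obtain ⟨v', hv', e'⟩ := lr1a hI hxa hax hv
      exact hab ⟨u + v', by linear_combination -e + e'⟩
    · exact hx h

/-- Packet CR-LR1. -/
theorem goalLR1 : GoalLR1.{u} := by
  intro R _ _ hW hI
  refine ⟨wprime hW, fun x y hxy hyx t ht => lr1a hI hxy hyx ht,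
    fun a b hab hba x _ hx => lr1b hW hI hab hba hx, ?_⟩
  intro a b hab hba x hxm hx
  have hx' : x ∉ Ideal.span {b, a} := by rwa [Ideal.span_pair_comm]
  obtain ⟨r, hr, ha⟩ := lr1b hW hI hab hba hx
  obtain ⟨r₂, hr₂, hb⟩ := lr1b hW hI hba hab hx'
  have h1 : ¬ r ∣ r₂ := by
    rintro ⟨t, ht⟩
    exact hab ⟨t, by rw [hb, ha, ht]; ring⟩
  have h2 : ¬ r₂ ∣ r := by
    rintro ⟨t, ht⟩
    exact hba ⟨t, by rw [hb, ha, ht]; ring⟩
  obtain ⟨x', hx'm, e⟩ := lr1a hI h2 h1 hxm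
  have hb' : b = r * x' := by rw [hb]; linear_combination e
  have h3 : ¬ x ∣ x' := by
    rintro ⟨t, ht⟩
    exact hab ⟨t, by rw [hb', ha, ht]; ring⟩
  have h4 : ¬ x' ∣ x := by
    rintro ⟨t, ht⟩
    exact hba ⟨t, by rw [hb', ha, ht]; ring⟩
  have hy : r₂ * x' ∈ Ideal.span {a, b} := by
    by_contra hy
    obtain ⟨t, ht, hat⟩ := lr1b hW hI hab hba hy
    obtain ⟨t₁, -, e1⟩ := lr1a hI h4 h3 ht
    apply hba
    refine ⟨t₁, ?_⟩
    rw [hat, hb]
    linear_combination r₂ * e1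
  obtain ⟨α, β, e2⟩ := Ideal.mem_span_pair.1 hy
  exact ⟨r, hr, r₂, hr₂, x', hx'm, α, β, ha, hb, hb', e2.symm, h1, h2, h3, h4⟩

end Pool.Agent.Helper84.CR
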