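import Pool.Agent.Helper48.CR.Goals
import Pool.Agent.Helper56.Mertens

/-!
# Packet MERT (MP_69be96_nt): Mertens products along an admissible cutoff
-/

set_option autoImplicit false

open Finset Filter Topology
open Pool.Agent.Helper48.CR
open Helper56 (ax al al_nonneg al_lower al_upper ax_mono ax_sub_loglog_tendsto)

namespace Pool.Agent.Helper84.CR

theorem V_eq (z : ℕ) : V z = Real.exp (-(ax z)) := by
  unfold V ax pr
  rw [Nat.floor_natCast, ← Finset.sum_neg_distrib, Real.exp_sum, Finset.prod_filter]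
  apply Finset.prod_congr rfl
  intro n _
  unfold al
  split_ifs with h
  · rw [neg_neg, Real.exp_log]
    have h2 : (2:ℝ) ≤ n := by exact_mod_cast h.two_le
    have h3 : (1:ℝ) / n ≤ 1 / 2 := by gcongr
    linarith
  · simp

theorem V_pos (z : ℕ) : 0 < V z := by
  rw [V_eq]; exact Real.exp_pos _

theorem V_anti : Antitone V := by
  intro a b hab
  rw [V_eq, V_eq]
  apply Real.exp_le_exp.mpr
  have h : (a:ℝ) ≤ b := by exact_mod_cast hab
  have := ax_mono h
  linarith

theorem V_log : Tendsto (fun z : ℕ => V z * Real.log z) atTop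
    (𝓝 (Real.exp (-Real.eulerMascheroniConstant))) := by
  have h0 : Tendsto (fun z : ℕ => ax (z:ℝ) - Real.log (Real.log (z:ℝ))) atTop
      (𝓝 Real.eulerMascheroniConstant) :=
    ax_sub_loglog_tendsto.comp (tendsto_natCast_atTop_atTop (R := ℝ))
  have h := (Real.continuous_exp.tendsto _).comp h0.neg
  refine h.congr' ?_
  filter_upwards [eventually_ge_atTop 2] with z hz
  simp only [Function.comp]
  have hz2 : (2:ℝ) ≤ z := by exact_mod_cast hz
  have hl : 0 < Real.log z := Real.log_pos (by linarith)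
  rw [V_eq, neg_sub, sub_eq_add_neg, Real.exp_add, Real.exp_log hl]
  ring

theorem V_split {r z : ℕ} (h : r ≤ z) :
    V z = V r * ∏ p ∈ pr r z, (1 - 1 / (p : ℝ)) := by
  unfold V
  have hd : Disjoint (pr 0 r) (pr r z) := by
    rw [Finset.disjoint_left]
    intro x hx hx'
    unfold pr at hx hx'
    rw [Finset.mem_filter, Finset.mem_Ioc] at hx hx'
    omega
  have hu : pr 0 z = pr 0 r ∪ pr r z := by
    ext x
    unfold pr
    simp only [Finset.mem_union, Finset.mem_filter, Finset.mem_Ioc]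
    constructor
    · rintro ⟨⟨h1, h2⟩, h3⟩
      by_cases h4 : x ≤ r
      · exact Or.inl ⟨⟨h1, h4⟩, h3⟩
      · exact Or.inr ⟨⟨by omega, h2⟩, h3⟩
    · rintro (⟨⟨h1, h2⟩, h3⟩ | ⟨⟨h1, h2⟩, h3⟩)
      · exact ⟨⟨h1, by omega⟩, h3⟩
      · exact ⟨⟨by omega, h2⟩, h3⟩
  rw [hu, Finset.prod_union hd]

theorem exp_lt : (1:ℝ) < 2 * Real.exp (-Real.eulerMascheroniConstant) := by
  have h1 := Real.eulerMascheroniConstant_lt_two_thirds
  have h2 : Real.exp (-(2/3 : ℝ)) < Real.exp (-Real.eulerMascheroniConstant) :=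
    Real.exp_lt_exp.mpr (by linarith)
  have h3 : Real.exp (2/3 : ℝ) < 2 := by
    have h4 : Real.exp (2/3 : ℝ) ^ 3 = Real.exp 1 ^ 2 := by
      rw [← Real.exp_nat_mul, ← Real.exp_nat_mul]
      norm_num
    have h5 := Real.exp_one_lt_d9
    have h6 := Real.exp_pos (2/3 : ℝ)
    by_contra hcon
    push Not at hcon
    have h7 : (8:ℝ) ≤ Real.exp (2/3 : ℝ) ^ 3 := by
      calc (8:ℝ) = 2 ^ 3 := by norm_num
        _ ≤ _ := by gcongr
    have h8 : Real.exp 1 ^ 2 < 8 := by
      have := Real.exp_pos (1:ℝ)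
      nlinarith
    linarith
  have h4 : (1:ℝ) / 2 < Real.exp (-(2/3 : ℝ)) := by
    rw [Real.exp_neg, ← one_div]
    exact one_div_lt_one_div_of_lt (Real.exp_pos _) h3
  linarith

theorem log_ratio : Tendsto (fun r : ℕ => Real.log ((r:ℝ) + 1) / Real.log r) atTop (𝓝 1) := by
  have h1 := Real.tendsto_log_nat_add_one_sub_log
  have h2 : Tendsto (fun r : ℕ => (Real.log (r:ℝ))⁻¹) atTop (𝓝 0) :=
    (Real.tendsto_log_atTop.comp (tendsto_natCast_atTop_atTop (R := ℝ))).inv_tendsto_atTop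
  have h3 := (h1.mul h2).add_const 1
  rw [zero_mul, zero_add] at h3
  refine h3.congr' ?_
  filter_upwards [eventually_ge_atTop 2] with z hz
  have hz2 : (2:ℝ) ≤ z := by exact_mod_cast hz
  have hl : 0 < Real.log z := Real.log_pos (by linarith)
  field_simp
  ring

theorem prod_lim (Z : ℕ → ℕ) (hZ : Cut Z) (K : ℕ) (hK : 4 ≤ K) (m : ℕ → ℕ)
    (hm : Tendsto m atTop atTop)
    (hl : Tendsto (fun r : ℕ => Real.log (m r : ℝ) / Real.log r) atTop (𝓝 (K : ℝ)))
    (hle : ∀ᶠ r : ℕ in atTop, r ≤ Z (m r)) :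
    Tendsto (fun r : ℕ => ∏ p ∈ pr r (Z (m r)), (1 - 1 / (p : ℝ))) atTop
      (𝓝 (Real.exp Real.eulerMascheroniConstant / K)) := by
  have hK0 : (0:ℝ) < K := by exact_mod_cast (by omega : 0 < K)
  have h1 : Tendsto (fun r : ℕ => V (Z (m r)) * Real.log (m r : ℝ)) atTop (𝓝 1) := hZ.lim.comp hm
  have h2 := (h1.div V_log (Real.exp_pos _).ne').div hl hK0.ne'
  have e : 1 / Real.exp (-Real.eulerMascheroniConstant) / (K:ℝ)
      = Real.exp Real.eulerMascheroniConstant / K := by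
    rw [Real.exp_neg]; simp
  rw [e] at h2
  refine h2.congr' ?_
  filter_upwards [hle, eventually_ge_atTop 2, hm.eventually_ge_atTop 2] with r hr hr2 hm2
  have hz2 : (2:ℝ) ≤ r := by exact_mod_cast hr2
  have hlr : 0 < Real.log r := Real.log_pos (by linarith)
  have hm2' : (2:ℝ) ≤ m r := by exact_mod_cast hm2
  have hlm : 0 < Real.log (m r : ℝ) := Real.log_pos (by linarith)
  have hV := V_pos r
  simp only [Pi.div_apply]
  rw [V_split hr]
  field_simp

theorem pr_prod_eq {r z : ℕ} :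
    ∏ p ∈ pr r z, (1 - 1 / (p : ℝ)) = Real.exp (-∑ p ∈ pr r z, al p) := by
  rw [← Finset.sum_neg_distrib, Real.exp_sum]
  apply Finset.prod_congr rfl
  intro p hp
  have h : p.Prime := by
    unfold pr at hp
    exact (Finset.mem_filter.mp hp).2
  unfold al
  rw [if_pos h, neg_neg, Real.exp_log]
  have h2 : (2:ℝ) ≤ p := by exact_mod_cast h.two_le
  have h3 : (1:ℝ) / p ≤ 1 / 2 := by gcongr
  linarith

theorem sum_sq_le {r z : ℕ} (hr : r ≠ 0) (h : r ≤ z) :
    ∑ p ∈ pr r z, 2 * (1 / (p:ℝ)) ^ 2 ≤ (2:ℝ) / (r:ℝ) := by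
  have h1 : ∑ p ∈ pr r z, 2 * (1 / (p:ℝ)) ^ 2 ≤ ∑ p ∈ Finset.Ioc r z, 2 * (1 / (p:ℝ)) ^ 2 := by
    apply Finset.sum_le_sum_of_subset_of_nonneg
    · unfold pr; exact Finset.filter_subset _ _
    · intro i _ _; positivity
  have h2 := sum_Ioc_inv_sq_le_sub (α := ℝ) hr h
  have h3 : ∑ p ∈ Finset.Ioc r z, 2 * (1 / (p:ℝ)) ^ 2
      = 2 * ∑ p ∈ Finset.Ioc r z, ((p:ℝ) ^ 2)⁻¹ := by
    rw [Finset.mul_sum]
    apply Finset.sum_congr rfl
    intro i _
    rw [one_div, inv_pow]
  have h4 : (0:ℝ) ≤ (z:ℝ)⁻¹ := by positivity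
  have h5 : (2:ℝ) / r = 2 * (r:ℝ)⁻¹ := by rw [div_eq_mul_inv]
  rw [h5]
  linarith

theorem mert : MERTG := by
  refine ⟨V_log, fun Z hZ K hK => ?_⟩
  have hK0 : (0:ℝ) < K := by exact_mod_cast (by omega : 0 < K)
  have hK4 : (4:ℝ) ≤ K := by exact_mod_cast hK
  have hpow : Tendsto (fun r : ℕ => r ^ K) atTop atTop := tendsto_pow_atTop (by omega)
  have hpow2 : Tendsto (fun r : ℕ => r ^ 2) atTop atTop := tendsto_pow_atTop (by omega)
  have hpow1 : Tendsto (fun r : ℕ => (r + 1) ^ K) atTop atTop :=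
    hpow.comp (tendsto_add_atTop_nat 1)
  -- (a)
  have ha : ∀ᶠ r : ℕ in atTop, r ^ 2 ≤ Z (r ^ K) := by
    have h1 : Tendsto (fun r : ℕ => V (Z (r ^ K)) * Real.log ((r ^ K : ℕ) : ℝ)) atTop (𝓝 1) :=
      hZ.lim.comp hpow
    have h2 : Tendsto (fun r : ℕ => (K / 2 : ℝ) * (V (r ^ 2) * Real.log ((r ^ 2 : ℕ) : ℝ))) atTop
        (𝓝 ((K / 2 : ℝ) * Real.exp (-Real.eulerMascheroniConstant))) :=
      (V_log.comp hpow2).const_mul _
    have h3 : (1:ℝ) < (K / 2 : ℝ) * Real.exp (-Real.eulerMascheroniConstant) := by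
      have := exp_lt
      have h4 := Real.exp_pos (-Real.eulerMascheroniConstant)
      nlinarith
    filter_upwards [h1.eventually_lt h2 h3, eventually_ge_atTop 2] with r hr hr2
    by_contra hcon
    push Not at hcon
    have h5 := V_anti hcon.le
    have hz2 : (2:ℝ) ≤ r := by exact_mod_cast hr2
    have hlr : 0 < Real.log r := Real.log_pos (by linarith)
    push_cast at hr
    rw [Real.log_pow, Real.log_pow] at hr
    push_cast at hr
    have h6 : (K / 2 : ℝ) * (V (r ^ 2) * (2 * Real.log r)) = V (r ^ 2) * (K * Real.log r) := by ring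
    rw [h6] at hr
    have h7 : V (r ^ 2) * (K * Real.log r) ≤ V (Z (r ^ K)) * (K * Real.log r) := by
      gcongr
    linarith
  have hle : ∀ᶠ r : ℕ in atTop, r ≤ Z (r ^ K) := by
    filter_upwards [ha] with r hr
    exact le_trans (Nat.le_self_pow (by omega) r) hr
  have hle1 : ∀ᶠ r : ℕ in atTop, r ≤ Z ((r + 1) ^ K) := by
    filter_upwards [hle] with r hr
    exact le_trans hr (hZ.mono (Nat.pow_le_pow_left (by omega) K))
  have hlr1 : Tendsto (fun r : ℕ => Real.log ((r ^ K : ℕ) : ℝ) / Real.log r) atTop (𝓝 (K : ℝ)) := by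
    refine tendsto_const_nhds.congr' ?_
    filter_upwards [eventually_ge_atTop 2] with r hr2
    have hz2 : (2:ℝ) ≤ r := by exact_mod_cast hr2
    have hlr : 0 < Real.log r := Real.log_pos (by linarith)
    push_cast
    rw [Real.log_pow]
    field_simp
  have hlr2 : Tendsto (fun r : ℕ => Real.log (((r + 1) ^ K : ℕ) : ℝ) / Real.log r) atTop
      (𝓝 (K : ℝ)) := by
    have := log_ratio.const_mul (K:ℝ)
    rw [mul_one] at this
    refine this.congr ?_
    intro r
    push_cast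
    rw [Real.log_pow]
    ring
  refine ⟨ha, ?_, prod_lim Z hZ K hK _ hpow1 hlr2 hle1⟩
  -- (c)
  have hp := prod_lim Z hZ K hK _ hpow hlr1 hle
  have hne : Real.exp Real.eulerMascheroniConstant / (K:ℝ) ≠ 0 := by positivity
  have hlog := ((Real.continuousAt_log hne).tendsto.comp hp).neg
  have e : -Real.log (Real.exp Real.eulerMascheroniConstant / (K:ℝ))
      = Real.log (K * Real.exp (-Real.eulerMascheroniConstant)) := by
    rw [Real.log_div (Real.exp_pos _).ne' hK0.ne', Real.log_mul hK0.ne' (Real.exp_pos _).ne',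
      Real.log_exp, Real.log_exp]
    ring
  rw [e] at hlog
  have hlog2 : Tendsto (fun r : ℕ => ∑ p ∈ pr r (Z (r ^ K)), al p) atTop
      (𝓝 (Real.log (K * Real.exp (-Real.eulerMascheroniConstant)))) := by
    refine hlog.congr ?_
    intro r
    simp only [Function.comp]
    rw [pr_prod_eq, Real.log_exp, neg_neg]
  have hz : Tendsto (fun r : ℕ => (2:ℝ) / r) atTop (𝓝 0) := tendsto_const_div_atTop_nhds_zero_nat 2
  have hlow := hlog2.sub hz
  rw [sub_zero] at hlow
  refine tendsto_of_tendsto_of_tendsto_of_le_of_le' hlow hlog2 ?_ ?_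
  · filter_upwards [hle, eventually_ge_atTop 2] with r hr hr2
    have h1 := sum_sq_le (by omega : r ≠ 0) hr
    have h2 : ∑ p ∈ pr r (Z (r ^ K)), al p ≤
        ∑ p ∈ pr r (Z (r ^ K)), (1 / (p:ℝ) + 2 * (1 / (p:ℝ)) ^ 2) := by
      apply Finset.sum_le_sum
      intro p hp
      unfold pr at hp
      exact al_upper (Finset.mem_filter.mp hp).2
    rw [Finset.sum_add_distrib] at h2
    linarith
  · filter_upwards with r
    apply Finset.sum_le_sum
    intro p hp
    unfold pr at hp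
    exact al_lower (Finset.mem_filter.mp hp).2

end Pool.Agent.Helper84.CR
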